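import Pool.Agent.W189.ML.Grow

/-! The Mittag-Leffler mean up to `O(1/T)`: the leading coefficient. -/

set_option autoImplicit false

namespace Pool.Agent.W189.LC

open Complex MeasureTheory Filter Topology Set
open scoped Interval
open Pool.Agent.W189.ML

theorem norm_rays_le' {a : ℝ} {Φ : ℂ → ℂ} (ha : 0 ≤ a) {A B : ℝ} (hA : 0 ≤ A) (hB : 0 ≤ B)
    {s : Set ℝ}
    (h1 : ∀ x ∈ s, ‖Φ (x + Real.pi * I)‖ ≤ A + B * x)
    (h2 : ∀ x ∈ s, ‖Φ (x - Real.pi * I)‖ ≤ A + B * x) (hs : s ⊆ Ioi a)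
    (hsm : MeasurableSet s) :
    ‖∫ x in s, rho Φ x‖ ≤ (A + B) * Real.exp (-a) := by
  have hg : IntegrableOn (fun x : ℝ => (A + B) * Real.exp (-x)) (Ioi a) :=
    (integrableOn_exp_neg_Ioi a).const_mul _
  have h3 : ‖∫ x in s, rho Φ x‖ ≤ ∫ x in s, (A + B) * Real.exp (-x) := by
    refine norm_integral_le_of_norm_le (hg.mono_set hs) ?_
    filter_upwards [ae_restrict_mem hsm] with x hx
    have hx' : a ≤ x := le_of_lt (hs hx)
    exact norm_rho_le ha hA hB hx' (h1 x hx) (h2 x hx)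
  have h4 : ∫ x in s, (A + B) * Real.exp (-x) ≤ ∫ x in Ioi a, (A + B) * Real.exp (-x) :=
    setIntegral_mono_set hg (ae_of_all _ fun x => by positivity) (ae_of_all _ hs)
  have h5 : ∫ x in Ioi a, (A + B) * Real.exp (-x) = (A + B) * Real.exp (-a) := by
    rw [integral_const_mul, integral_exp_neg_Ioi]
  exact h3.trans (h4.trans h5.le)

/-- the branch of the logarithm near `2` -/
theorem branch {L Q : ℂ → ℂ} {m : ℤ} (hL : ContinuousAt L 2) (hL2 : (L 2).im = 0)
    (hQ : AnalyticAt ℂ Q 2) (hQp : Q 2 ∈ slitPlane) (hQ2 : (log (Q 2)).im = 0)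
    (hΦ : ∀ᶠ w in 𝓝 (2 : ℂ), exp (L w) = w ^ m * Q w) :
    ∃ δ > 0, ∀ w : ℂ, dist w 2 < δ → L w = m * log w + log (Q w) := by
  set d : ℂ → ℂ := fun w => L w - m * log w - log (Q w) with hd
  have hs2 : (2 : ℂ) ∈ slitPlane := by
    left
    simp
  have hdc : ContinuousAt d 2 := by
    refine ContinuousAt.sub (ContinuousAt.sub hL ?_) ?_
    · refine continuousAt_const.mul (ContinuousAt.clog (by fun_prop) hs2)
    · exact hQ.continuousAt.clog hQp
  have hexp : ∀ᶠ w in 𝓝 (2 : ℂ), exp (d w) = 1 := by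
    have e1 : ∀ᶠ w in 𝓝 (2 : ℂ), w ∈ slitPlane := isOpen_slitPlane.mem_nhds hs2
    have e2 : ∀ᶠ w in 𝓝 (2 : ℂ), Q w ∈ slitPlane :=
      hQ.continuousAt.eventually (isOpen_slitPlane.mem_nhds hQp)
    filter_upwards [hΦ, e1, e2] with w h3 h4 h5
    have h6 := slitPlane_ne_zero h4
    have h7 := slitPlane_ne_zero h5
    rw [hd]
    simp only
    rw [Complex.exp_sub, Complex.exp_sub, h3, Complex.exp_int_mul, Complex.exp_log h6,
      Complex.exp_log h7]
    field_simp
  have hd2 : d 2 = 0 := by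
    have e1 := hexp.self_of_nhds
    have e2 : (d 2).im = 0 := by
      rw [hd]
      simp only [Complex.sub_im, hL2, hQ2, sub_zero, Complex.mul_im,
        Complex.intCast_re, Complex.intCast_im, zero_mul, add_zero, zero_sub, neg_eq_zero]
      have : (2 : ℂ) = ((2 : ℝ) : ℂ) := by push_cast; rfl
      rw [this, ← Complex.ofReal_log (by norm_num), Complex.ofReal_im, mul_zero]
    have e3 : d 2 = ((d 2).re : ℂ) := by
      apply Complex.ext <;> simp [e2]
    rw [e3, ← Complex.ofReal_exp] at e1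
    have e4 : Real.exp (d 2).re = 1 := by exact_mod_cast e1
    rw [Real.exp_eq_one_iff] at e4
    rw [e3, e4]
    simp
  have hsmall : ∀ᶠ w in 𝓝 (2 : ℂ), ‖d w‖ < 1 := by
    have := hdc.norm
    have h3 : ‖d 2‖ < 1 := by rw [hd2]; simp
    exact this.eventually (gt_mem_nhds h3)
  have hz : ∀ᶠ w in 𝓝 (2 : ℂ), d w = 0 := by
    filter_upwards [hexp, hsmall] with w e1 e2
    obtain ⟨n, hn⟩ := Complex.exp_eq_one_iff.1 e1
    by_cases hn0 : n = 0
    · rw [hn, hn0]; simp
    · exfalso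
      rw [hn] at e2
      rw [norm_mul, norm_mul, norm_mul, Complex.norm_I, Complex.norm_real, Real.norm_eq_abs,
        abs_of_pos Real.pi_pos, Complex.norm_intCast] at e2
      have : (1 : ℝ) ≤ |(n : ℝ)| := by
        have := Int.one_le_abs hn0
        exact_mod_cast this
      have h3 := Real.pi_gt_three
      norm_num at e2
      nlinarith
  obtain ⟨δ, hδ, h3⟩ := Metric.eventually_nhds_iff.1 hz
  refine ⟨δ, hδ, fun w hw => ?_⟩
  have := h3 hw
  rw [hd] at this
  simp only at this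
  linear_combination this

/-- a thin rectangle around `[0, 2]` -/
theorem rect {Q : ℂ → ℂ} (hQ : ∀ x ∈ Icc (0 : ℝ) 2, AnalyticAt ℂ Q (x : ℂ))
    (hQp : ∀ x ∈ Icc (0 : ℝ) 2, Q (x : ℂ) ∈ slitPlane) :
    ∃ δ > 0, ∃ M : ℝ, 0 ≤ M ∧ ∀ w : ℂ, 0 ≤ w.re → w.re ≤ 2 → |w.im| ≤ δ →
      ‖log (Q w) - log (Q 0)‖ ≤ M * ‖w‖ ∧ DifferentiableAt ℂ (fun w => log (Q w)) w := by
  set Kc : Set ℂ := (fun x : ℝ => (x : ℂ)) '' Icc 0 2 with hKc
  have hKcc : IsCompact Kc := isCompact_Icc.image (by fun_prop)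
  set U : Set ℂ := {w | AnalyticAt ℂ Q w ∧ Q w ∈ slitPlane} with hU
  have hUo : IsOpen U := by
    rw [isOpen_iff_mem_nhds]
    rintro w ⟨hw1, hw2⟩
    filter_upwards [hw1.eventually_analyticAt,
      hw1.continuousAt.eventually (isOpen_slitPlane.mem_nhds hw2)] with v h3 h4
    exact ⟨h3, h4⟩
  have hKU : Kc ⊆ U := by
    rintro _ ⟨x, hx, rfl⟩
    exact ⟨hQ x hx, hQp x hx⟩
  obtain ⟨δ₂, hδ₂, hsub⟩ := hKcc.exists_cthickening_subset_open hUo hKU
  have hcc : IsCompact (Metric.cthickening δ₂ Kc) := hKcc.cthickening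
  have h0U : AnalyticAt ℂ (fun w => log (Q w)) 0 := by
    have h1 := hQ 0 ⟨le_rfl, by norm_num⟩
    have h2 := hQp 0 ⟨le_rfl, by norm_num⟩
    rw [Complex.ofReal_zero] at h1 h2
    exact h1.clog h2
  have hlc : ContinuousOn (dslope (fun w => log (Q w)) 0) (Metric.cthickening δ₂ Kc) := by
    intro w hw
    obtain ⟨h3, h4⟩ := hsub hw
    by_cases h : w = 0
    · rw [h]
      exact (continuousAt_dslope_same.2 h0U.differentiableAt).continuousWithinAt
    · exact ((continuousAt_dslope_of_ne h).2 (h3.continuousAt.clog h4)).continuousWithinAt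
  obtain ⟨M, hM⟩ := hcc.exists_bound_of_continuousOn hlc
  have hmem : ∀ w : ℂ, 0 ≤ w.re → w.re ≤ 2 → |w.im| ≤ δ₂ → w ∈ Metric.cthickening δ₂ Kc := by
    intro w h3 h4 h5
    refine Metric.mem_cthickening_of_dist_le w (w.re : ℂ) δ₂ Kc ⟨w.re, ⟨h3, h4⟩, rfl⟩ ?_
    rw [Complex.dist_eq]
    have : w - (w.re : ℂ) = (w.im : ℂ) * I := by
      apply Complex.ext <;> simp
    rw [this, norm_mul, Complex.norm_I, mul_one, Complex.norm_real, Real.norm_eq_abs]
    exact h5
  refine ⟨δ₂, hδ₂, |M|, abs_nonneg _, fun w h3 h4 h5 => ⟨?_, ?_⟩⟩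
  · have h6 := hM w (hmem w h3 h4 h5)
    have h7 := sub_smul_dslope (fun w => log (Q w)) 0 w
    beta_reduce at h7
    rw [← h7, sub_zero, smul_eq_mul, norm_mul, mul_comm]
    exact mul_le_mul_of_nonneg_right (h6.trans (le_abs_self M)) (norm_nonneg _)
  · obtain ⟨h6, h7⟩ := hsub (hmem w h3 h4 h5)
    exact h6.differentiableAt.clog h7

theorem V_one (a : ℝ) (c : ℂ) : V a (fun _ => c) = c := by
  have h1 := J_exp_zero a
  have h2 : (fun z : ℂ => exp (-(z * ((0 : ℝ) : ℂ)))) = fun _ => 1 := by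
    funext z; simp
  rw [h2] at h1
  unfold J at h1
  have h3 : ∀ x : ℝ, rho (fun _ => (1 : ℂ)) x = 0 := by
    intro x; unfold rho; simp
  simp only [h3, integral_zero, add_zero] at h1
  have h4 := V_const_mul (a := a) (Φ := fun _ => (1 : ℂ)) c
  simp only [mul_one] at h4
  rw [h4, h1, mul_one]

/-- **the refined asymptotics** -/
theorem refined {ι : Type} [Countable ι] {lam c : ι → ℝ} (D : SData lam c (fun _ => 0)) (m : ℤ)
    (Q : ℂ → ℂ) (hQ : ∀ x ∈ Icc (0 : ℝ) 2, AnalyticAt ℂ Q (x : ℂ))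
    (hQp : ∀ x ∈ Icc (0 : ℝ) 2, Q (x : ℂ) ∈ slitPlane) (hQ2 : (log (Q 2)).im = 0)
    (hΦ : ∀ᶠ w in 𝓝 (2 : ℂ), exp (-ser lam c w) = w ^ m * Q w)
    (hcont : ContinuousAt (ser lam c) 2) :
    ∃ C T₀ : ℝ, 0 ≤ C ∧ 1 ≤ T₀ ∧ ∀ T ≥ T₀,
      ‖(mean lam c T : ℂ) - (m * (Real.log T - J 1 log) - log (Q 0))‖ ≤ C / T := by
  have hpi := Real.pi_pos
  obtain ⟨δ, hδ, hbr⟩ := branch (L := fun w => -ser lam c w) (m := m) (Q := Q) hcont.neg
    (by rw [Complex.neg_im, SData.ser_two lam c, neg_zero]) (by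
      have := hQ 2 ⟨by norm_num, le_rfl⟩; simpa using this) (by
      have := hQp 2 ⟨by norm_num, le_rfl⟩; simpa using this) hQ2 hΦ
  obtain ⟨δ₂, hδ₂, M, hM0, hM⟩ := rect hQ hQp
  set C3 : ℝ := ∑' i, |c i| * Real.exp (-(2 * lam i)) with hC3
  have hC30 : 0 ≤ C3 := tsum_nonneg fun i => by positivity
  have hq1 : 0 < Real.pi / δ := by positivity
  have hq2 : 0 < Real.pi / δ₂ := by positivity
  refine ⟨C3 + |(m : ℝ)| * 8 + Real.exp (Real.exp 1) * (M * 5) + M * 5,
    Real.pi / δ + Real.pi / δ₂ + 1, by positivity, by linarith, fun T hT => ?_⟩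
  have hT1 : 1 ≤ T := by linarith
  have hT0 : 0 < T := by linarith
  have hTδ : Real.pi / T < δ := by
    rw [div_lt_iff₀ hT0, mul_comm, ← div_lt_iff₀ hδ]; linarith
  have hTδ₂ : Real.pi / T ≤ δ₂ := by
    rw [div_le_iff₀ hT0, mul_comm, ← div_le_iff₀ hδ₂]; linarith
  set b : ℝ := 2 * T with hb
  have hb0 : 0 ≤ b := by positivity
  have hb1 : 1 ≤ b := by linarith
  have hTc : (T : ℂ) ≠ 0 := by exact_mod_cast hT0.ne'
  have hdre : ∀ z : ℂ, (z / T).re = z.re / T := fun z => by simp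
  have hdim : ∀ z : ℂ, (z / T).im = z.im / T := fun z => by simp
  have hre2 : ∀ z ∈ HS b, 2 ≤ (z / T).re := by
    intro z hz
    rw [hdre, le_div_iff₀ hT0]
    exact hz.1
  have hsb : ∀ z ∈ HS b, ‖ser lam c (z / T)‖ ≤ C3 := fun z hz => D.ser_le (hre2 z hz)
  -- E1
  obtain ⟨E1, -⟩ := D.mean_eq hT1 hb.symm.le
  have hexpb : Real.exp (-b) ≤ 1 / T := by
    rw [Real.exp_neg, le_div_iff₀ hT0, inv_mul_le_iff₀ (Real.exp_pos _), mul_one]
    have := Real.add_one_le_exp b
    linarith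
  have E4 : ‖∫ x in Ioi b, rho (fun z => ser lam c (z / T)) x‖ ≤ C3 / T := by
    have := norm_rays_le' (Φ := fun z => ser lam c (z / T)) hb0 hC30 le_rfl (s := Ioi b)
      (fun x hx => by have := hsb _ (up_mem (le_of_lt hx)); linarith)
      (fun x hx => by have := hsb _ (down_mem (le_of_lt hx)); linarith) subset_rfl measurableSet_Ioi
    refine this.trans ?_
    rw [add_zero, div_eq_mul_one_div]
    gcongr
  obtain ⟨admlog, hlogb⟩ := adm_log (b := b) hT1 le_rfl zero_le_one hb.symm.le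
  simp only [Complex.ofReal_zero, sub_zero] at admlog hlogb
  have E6 : ‖∫ x in Ioi b, rho (fun z => log (z / T)) x‖ ≤ 8 / T := by
    have := norm_rays_le' (Φ := fun z => log (z / T)) (A := 7) (B := 1) hb0 (by norm_num)
      (by norm_num) (s := Ioi b)
      (fun x hx => by have := hlogb _ (up_mem (le_of_lt hx)); simpa using this)
      (fun x hx => by have := hlogb _ (down_mem (le_of_lt hx)); simpa using this)
      subset_rfl measurableSet_Ioi
    refine this.trans ?_
    rw [div_eq_mul_one_div]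
    norm_num
    exact (by simpa using hexpb)
  have E7 := J_log (b := b) hT1 le_rfl zero_le_one hb.symm.le
  simp only [Complex.ofReal_zero, sub_zero, zero_mul, grow_zero] at E7
  -- the vertical part of the series
  have admS : Adm b (fun z : ℂ => ser lam c (z / T)) := by
    refine ⟨D.ser_cont.comp (by fun_prop) hre2, C3, 0, hC30, le_rfl, fun z hz => ?_⟩
    have := hsb z hz
    linarith
  have E8 : V b (fun z => ser lam c (z / T)) + m * V b (fun z => log (z / T)) =
      - V b (fun z => log (Q (z / T))) := by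
    have admm : Adm b (fun z => (-m : ℂ) * log (z / T)) := by
      refine ⟨continuousOn_const.mul admlog.cont, |(m : ℝ)| * 7, |(m : ℝ)| * 1, by positivity,
        by positivity, fun z hz => ?_⟩
      rw [norm_mul, norm_neg, Complex.norm_intCast]
      have := hlogb z hz
      calc |(m : ℝ)| * ‖log (z / T)‖ ≤ |(m : ℝ)| * (7 + 1 * z.re) := by gcongr
        _ = _ := by ring
    have e1 : V b (fun z => ser lam c (z / T)) - V b (fun z => (-m : ℂ) * log (z / T)) =
        V b (fun z => (-1 : ℂ) * log (Q (z / T))) := by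
      rw [← V_sub admS admm]
      refine V_congr fun y hy => ?_
      have h3 : dist (((b : ℂ) + y * I) / T) 2 < δ := by
        rw [Complex.dist_eq]
        have : ((b : ℂ) + y * I) / T - 2 = ((y / T : ℝ) : ℂ) * I := by
          rw [hb]
          push_cast
          field_simp
          ring
        rw [this, norm_mul, Complex.norm_I, mul_one, Complex.norm_real, Real.norm_eq_abs, abs_div,
          abs_of_pos hT0]
        exact (div_le_div_of_nonneg_right hy hT0.le).trans_lt hTδ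
      have := hbr _ h3
      linear_combination -this
    rw [V_const_mul, V_const_mul] at e1
    linear_combination e1
  -- shift
  have hsubr : ∀ z ∈ [[1, b]] ×ℂ [[-Real.pi, Real.pi]],
      0 ≤ (z / T).re ∧ (z / T).re ≤ 2 ∧ |(z / T).im| ≤ δ₂ := by
    intro z hz
    rw [mem_reProdIm, uIcc_of_le hb1, uIcc_of_le (by linarith)] at hz
    rw [hdre, hdim]
    refine ⟨?_, ?_, ?_⟩
    · have := hz.1.1
      positivity
    · rw [div_le_iff₀ hT0]; exact hz.1.2
    · rw [abs_div, abs_of_pos hT0]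
      exact (div_le_div_of_nonneg_right (abs_le.2 hz.2) hT0.le).trans hTδ₂
  have hnz : ∀ z : ℂ, 0 ≤ z.re → |z.im| ≤ Real.pi → ‖z / T‖ ≤ (z.re + 4) / T := by
    intro z h1 h2
    rw [norm_div, Complex.norm_real, Real.norm_eq_abs, abs_of_pos hT0]
    refine div_le_div_of_nonneg_right ?_ hT0.le
    have h4 := Complex.norm_le_abs_re_add_abs_im z
    rw [abs_of_nonneg h1] at h4
    have := Real.pi_lt_four
    linarith
  set R : ℂ → ℂ := fun z => log (Q (z / T)) - log (Q 0) with hR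
  have hRd : DifferentiableOn ℂ R ([[1, b]] ×ℂ [[-Real.pi, Real.pi]]) := by
    intro z hz
    obtain ⟨h3, h4, h5⟩ := hsubr z hz
    have h6 : DifferentiableAt ℂ (fun z : ℂ => log (Q (z / T))) z :=
      DifferentiableAt.comp (g := fun w => log (Q w)) (f := fun z : ℂ => z / T) z
        (hM _ h3 h4 h5).2 (by fun_prop)
    exact (h6.sub_const _).differentiableWithinAt
  have hRb : ∀ z ∈ [[1, b]] ×ℂ [[-Real.pi, Real.pi]], ‖R z‖ ≤ M * ((z.re + 4) / T) := by
    intro z hz
    obtain ⟨h3, h4, h5⟩ := hsubr z hz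
    refine (hM _ h3 h4 h5).1.trans ?_
    rw [mem_reProdIm, uIcc_of_le hb1, uIcc_of_le (by linarith)] at hz
    exact mul_le_mul_of_nonneg_left (hnz z (by linarith [hz.1.1]) (abs_le.2 hz.2)) hM0
  have E9 : V b R = V 1 R + ∫ x in (1 : ℝ)..b, rho R x := V_shift hRd
  have E9' : V b (fun z => log (Q (z / T))) = V b R + log (Q 0) := by
    have hc : ∀ y : ℝ, |y| ≤ Real.pi → ((b : ℂ) + y * I) ∈ [[1, b]] ×ℂ [[-Real.pi, Real.pi]] := by
      intro y hy
      rw [mem_reProdIm, uIcc_of_le hb1, uIcc_of_le (by linarith)]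
      refine ⟨?_, ?_⟩
      · simpa using hb1
      · simpa using abs_le.1 hy
    have hpp : -Real.pi ≤ Real.pi := by linarith
    have i1 : IntervalIntegrable (fun y : ℝ => K (b + y * I) * R (b + y * I)) volume
        (-Real.pi) Real.pi := by
      refine ContinuousOn.intervalIntegrable ?_
      refine ContinuousOn.mul (continuous_K.comp (by fun_prop)).continuousOn ?_
      refine hRd.continuousOn.comp (by fun_prop) ?_
      intro y hy
      rw [uIcc_of_le hpp] at hy
      exact hc y (abs_le.2 hy)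
    have i2 : IntervalIntegrable (fun y : ℝ => K (b + y * I) * log (Q 0)) volume
        (-Real.pi) Real.pi := by
      refine Continuous.intervalIntegrable ?_ _ _
      exact (continuous_K.comp (by fun_prop)).mul continuous_const
    have h1 := V_one b (log (Q 0))
    rw [← h1]
    unfold V
    rw [← mul_add, ← intervalIntegral.integral_add i1 i2]
    congr 1
    refine intervalIntegral.integral_congr fun y _ => ?_
    simp only [hR]
    ring
  have E10 : ‖V 1 R‖ ≤ Real.exp (Real.exp 1) * (M * (5 / T)) := by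
    refine norm_V_le fun y hy => ?_
    have := hRb ((1 : ℝ) + y * I) (by
      rw [mem_reProdIm, uIcc_of_le hb1, uIcc_of_le (by linarith)]
      refine ⟨?_, ?_⟩
      · simpa using hb1
      · simpa using abs_le.1 hy)
    have h2 : (((1 : ℝ) : ℂ) + y * I).re + 4 = 5 := by simp; norm_num
    rw [h2] at this
    exact this
  have E11 : ‖∫ x in (1 : ℝ)..b, rho R x‖ ≤ M * (5 / T) := by
    rw [intervalIntegral.integral_of_le hb1]
    have hu : ∀ x ∈ Ioc (1 : ℝ) b, ‖R (x + Real.pi * I)‖ ≤ M * 4 / T + M / T * x := by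
      intro x hx
      have := hRb (x + Real.pi * I) (by
        rw [mem_reProdIm, uIcc_of_le hb1, uIcc_of_le (by linarith)]
        refine ⟨?_, ?_⟩
        · simpa using Ioc_subset_Icc_self hx
        · simp; linarith)
      refine this.trans (le_of_eq ?_)
      simp
      ring
    have hd : ∀ x ∈ Ioc (1 : ℝ) b, ‖R (x - Real.pi * I)‖ ≤ M * 4 / T + M / T * x := by
      intro x hx
      have := hRb (x - Real.pi * I) (by
        rw [mem_reProdIm, uIcc_of_le hb1, uIcc_of_le (by linarith)]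
        refine ⟨?_, ?_⟩
        · simpa using Ioc_subset_Icc_self hx
        · simp; linarith)
      refine this.trans (le_of_eq ?_)
      simp
      ring
    have := norm_rays_le (Φ := R) zero_le_one (by positivity) (by positivity)
      (s := Ioc (1 : ℝ) b) hu hd Ioc_subset_Ioi_self measurableSet_Ioc
    refine this.trans (le_of_eq ?_)
    ring
  -- conclusion
  have E12 : (mean lam c T : ℂ) - (m * (Real.log T - J 1 log) - log (Q 0)) =
      m * (∫ x in Ioi b, rho (fun z => log (z / T)) x) +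
      (∫ x in Ioi b, rho (fun z => ser lam c (z / T)) x) -
      V 1 R - (∫ x in (1 : ℝ)..b, rho R x) := by
    rw [E9', E9] at E8
    unfold J at E1 E7
    unfold J
    linear_combination -E1 - (m : ℂ) * E7 + E8
  rw [E12]
  have h1 : C3 / T + |(m : ℝ)| * (8 / T) + Real.exp (Real.exp 1) * (M * (5 / T)) + M * (5 / T) =
      (C3 + |(m : ℝ)| * 8 + Real.exp (Real.exp 1) * (M * 5) + M * 5) / T := by
    field_simp
  rw [← h1]
  refine (norm_sub_le _ _).trans (add_le_add ?_ E11)
  refine (norm_sub_le _ _).trans (add_le_add ?_ E10)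
  rw [add_comm (C3 / T)]
  refine (norm_add_le _ _).trans (add_le_add ?_ E4)
  rw [norm_mul, Complex.norm_intCast]
  gcongr

end Pool.Agent.W189.LC
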