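import Pool.Agent.W189.LC.Main

/-! Euler products with quadratic factors. -/

set_option autoImplicit false

namespace Pool.Agent.W189.LC

open Complex MeasureTheory Filter Topology Set
open Pool.Agent.W189.ML

/-- the power sums `α^n + β^n` of the roots of `X² - a X + e` -/
def psum {R : Type} [Ring R] (a e : R) : ℕ → R
  | 0 => 2
  | 1 => a
  | (n + 2) => a * psum a e (n + 1) - e * psum a e n

theorem psum_eq {a e : ℝ} {α β : ℂ} (h1 : α + β = a) (h2 : α * β = e) (n : ℕ) :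
    ((psum a e n : ℝ) : ℂ) = α ^ n + β ^ n := by
  induction n using Nat.twoStepInduction with
  | zero => simp [psum]; norm_num
  | one => simp [psum, h1]
  | more n ih1 ih2 =>
    simp only [psum]
    push_cast
    rw [ih1, ih2, ← h1, ← h2]
    ring

theorem exists_roots (a e : ℝ) : ∃ α β : ℂ, α + β = a ∧ α * β = e := by
  obtain ⟨s, hs⟩ := IsAlgClosed.exists_pow_nat_eq ((a : ℂ) ^ 2 - 4 * e) (n := 2) (by norm_num)
  refine ⟨(a + s) / 2, (a - s) / 2, by ring, ?_⟩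
  have : (a + s) / 2 * ((a - s) / 2) = (a ^ 2 - s ^ 2) / 4 := by ring
  rw [this, hs]
  ring

theorem root_le {q a e : ℝ} (hq : 0 ≤ q) (ha : |a| ≤ q) (he : |e| ≤ q) {α β : ℂ}
    (h1 : α + β = a) (h2 : α * β = e) : ‖α‖ ≤ q + 1 := by
  by_contra hlt
  push Not at hlt
  have h3 : α ^ 2 = a * α - e := by
    rw [← h1, ← h2]; ring
  have h4 : ‖α‖ ^ 2 ≤ q * ‖α‖ + q := by
    rw [← norm_pow, h3]
    refine (norm_sub_le _ _).trans ?_
    rw [norm_mul, Complex.norm_real, Complex.norm_real, Real.norm_eq_abs, Real.norm_eq_abs]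
    gcongr
  nlinarith

/-- numerical data of an Euler product with quadratic factors -/
structure EP {P : Type} (q a e : P → ℝ) : Prop where
  two_le : ∀ v, 2 ≤ q v
  sum : ∀ σ : ℝ, 1 < σ → Summable fun v => q v ^ (-σ)
  ha : ∀ v, |a v| ≤ q v
  he : ∀ v, |e v| ≤ q v

/-- the frequencies `log q^k` -/
noncomputable def fr {P : Type} (q : P → ℝ) (x : P × ℕ) : ℝ := (x.2 + 1) * Real.log (q x.1)

/-- the coefficients `(α^k + β^k)/(k q^k)` -/
noncomputable def cf {P : Type} (q a e : P → ℝ) (x : P × ℕ) : ℝ :=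
  psum (a x.1) (e x.1) (x.2 + 1) / ((x.2 + 1) * q x.1 ^ (x.2 + 1))

variable {P : Type} {q a e : P → ℝ}

theorem EP.psum_le (E : EP q a e) (v : P) (n : ℕ) :
    |psum (a v) (e v) n| ≤ 2 * (q v + 1) ^ n := by
  obtain ⟨α, β, h1, h2⟩ := exists_roots (a v) (e v)
  have hq : 0 ≤ q v := by linarith [E.two_le v]
  have h3 := root_le hq (E.ha v) (E.he v) h1 h2
  have h4 := root_le hq (E.ha v) (E.he v) (by rw [add_comm]; exact h1) (by rw [mul_comm]; exact h2)
  rw [← Real.norm_eq_abs, ← Complex.norm_real, psum_eq h1 h2]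
  refine (norm_add_le _ _).trans ?_
  rw [norm_pow, norm_pow, two_mul]
  gcongr

theorem EP.cf_le (E : EP q a e) (x : P × ℕ) : |cf q a e x| ≤ 2 * (3 / 2) ^ (x.2 + 1) := by
  have hq := E.two_le x.1
  have hq0 : 0 < q x.1 := by linarith
  unfold cf
  rw [abs_div, abs_of_pos (by positivity : (0 : ℝ) < (x.2 + 1) * q x.1 ^ (x.2 + 1)),
    div_le_iff₀ (by positivity)]
  refine (E.psum_le x.1 (x.2 + 1)).trans ?_
  have h1 : (q x.1 + 1) ^ (x.2 + 1) ≤ (3 / 2 * q x.1) ^ (x.2 + 1) := by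
    gcongr
    linarith
  rw [mul_pow] at h1
  have h2 : (1 : ℝ) ≤ x.2 + 1 := by
    have : (0 : ℝ) ≤ x.2 := x.2.cast_nonneg
    linarith
  calc 2 * (q x.1 + 1) ^ (x.2 + 1) ≤ 2 * ((3 / 2) ^ (x.2 + 1) * q x.1 ^ (x.2 + 1)) := by gcongr
    _ ≤ 2 * ((3 / 2) ^ (x.2 + 1) * q x.1 ^ (x.2 + 1)) * (x.2 + 1) :=
      le_mul_of_one_le_right (by positivity) h2
    _ = _ := by ring

theorem EP.fr_nonneg (E : EP q a e) (x : P × ℕ) : 0 ≤ fr q x := by
  unfold fr
  have := Real.log_nonneg (by linarith [E.two_le x.1] : 1 ≤ q x.1)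
  positivity

theorem EP.exp_fr (E : EP q a e) (σ : ℝ) (x : P × ℕ) :
    Real.exp (-(σ * fr q x)) = (q x.1 ^ (-σ)) ^ (x.2 + 1) := by
  have hq0 : 0 < q x.1 := by linarith [E.two_le x.1]
  rw [← Real.rpow_natCast, ← Real.rpow_mul hq0.le, Real.rpow_def_of_pos hq0]
  unfold fr
  congr 1
  push_cast
  ring

theorem EP.rpow_le (E : EP q a e) {σ : ℝ} (hσ : 1 ≤ σ) (v : P) : q v ^ (-σ) ≤ 1 / 2 := by
  have hq := E.two_le v
  calc q v ^ (-σ) ≤ q v ^ (-1 : ℝ) :=
        Real.rpow_le_rpow_of_exponent_le (by linarith) (by linarith)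
    _ = (q v)⁻¹ := Real.rpow_neg_one _
    _ ≤ 2⁻¹ := inv_anti₀ (by norm_num) hq
    _ = 1 / 2 := by norm_num

theorem EP.term_le (E : EP q a e) {σ : ℝ} (hσ : 1 ≤ σ) (x : P × ℕ) :
    |cf q a e x| * Real.exp (-(σ * fr q x)) ≤ 3 * q x.1 ^ (-σ) * (3 / 4) ^ x.2 := by
  have hq0 : 0 < q x.1 := by linarith [E.two_le x.1]
  rw [E.exp_fr]
  set y := q x.1 ^ (-σ) with hy
  have hy0 : 0 ≤ y := by positivity
  have hy1 : y ≤ 1 / 2 := E.rpow_le hσ x.1
  calc |cf q a e x| * y ^ (x.2 + 1) ≤ (2 * (3 / 2) ^ (x.2 + 1)) * y ^ (x.2 + 1) := by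
        gcongr
        exact E.cf_le x
    _ = 3 * y * (3 / 2 * y) ^ x.2 := by
      rw [mul_pow, pow_succ, pow_succ]
      ring
    _ ≤ 3 * y * (3 / 4) ^ x.2 := by
      gcongr
      linarith

theorem EP.summable (E : EP q a e) {σ : ℝ} (hσ : 1 < σ) :
    Summable fun x => |cf q a e x| * Real.exp (-(σ * fr q x)) := by
  have hg : Summable fun n : ℕ => (3 / 4 : ℝ) ^ n :=
    summable_geometric_of_lt_one (by norm_num) (by norm_num)
  have h1 := ((E.sum σ hσ).mul_left 3).mul_of_nonneg hg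
    (fun v => by
      have : 0 < q v := by linarith [E.two_le v]
      show 0 ≤ 3 * q v ^ (-σ)
      positivity) (fun n => by positivity)
  exact Summable.of_nonneg_of_le (fun x => by positivity) (fun x => E.term_le hσ.le x) h1

/-- the Euler factor at `v` in terms of the series -/
theorem EP.factor_sum (E : EP q a e) {w : ℂ} (hw : 1 ≤ w.re) (v : P) :
    HasSum (fun n : ℕ => (cf q a e (v, n) : ℂ) * exp (-(w * fr q (v, n))))
      (∑' n : ℕ, (cf q a e (v, n) : ℂ) * exp (-(w * fr q (v, n)))) ∧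
    exp (∑' n : ℕ, (cf q a e (v, n) : ℂ) * exp (-(w * fr q (v, n)))) =
      (1 - a v * (q v : ℂ) ^ (-(1 + w)) + e v * ((q v : ℂ) ^ (-(1 + w))) ^ 2)⁻¹ := by
  have hq := E.two_le v
  have hq0 : 0 < q v := by linarith
  obtain ⟨α, β, h1, h2⟩ := exists_roots (a v) (e v)
  have h3 := root_le hq0.le (E.ha v) (E.he v) h1 h2
  have h4 := root_le hq0.le (E.ha v) (E.he v) (by rw [add_comm]; exact h1)
    (by rw [mul_comm]; exact h2)
  set x : ℂ := (q v : ℂ) ^ (-(1 + w)) with hx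
  have hxn : ‖x‖ = q v ^ (-(1 + w.re)) := by
    rw [hx, Complex.norm_cpow_eq_rpow_re_of_pos hq0]
    simp
  have hxle : ‖x‖ ≤ (q v)⁻¹ * (1 / 2) := by
    rw [hxn, show -(1 + w.re) = -1 + -w.re by ring, Real.rpow_add hq0, Real.rpow_neg_one]
    gcongr
    exact E.rpow_le hw v
  have hb : ∀ γ : ℂ, ‖γ‖ ≤ q v + 1 → ‖γ * x‖ < 1 := by
    intro γ hγ
    rw [norm_mul]
    calc ‖γ‖ * ‖x‖ ≤ (q v + 1) * ((q v)⁻¹ * (1 / 2)) := by gcongr
      _ = (q v + 1) / (2 * q v) := by field_simp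
      _ < 1 := by
        rw [div_lt_one (by positivity)]
        linarith
  have hα := hb α h3
  have hβ := hb β h4
  have hterm : ∀ n : ℕ, (cf q a e (v, n) : ℂ) * exp (-(w * fr q (v, n))) =
      (α * x) ^ (n + 1) / ((n + 1 : ℕ) : ℂ) + (β * x) ^ (n + 1) / ((n + 1 : ℕ) : ℂ) := by
    intro n
    have e1 : x ^ (n + 1) = ((q v : ℂ) ^ (n + 1))⁻¹ * exp (-(w * fr q (v, n))) := by
      have hqc : (q v : ℂ) ≠ 0 := by exact_mod_cast hq0.ne'
      rw [hx, Complex.cpow_def_of_ne_zero hqc, ← Complex.exp_nat_mul]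
      have e2 : (q v : ℂ) ^ (n + 1) = exp (((n + 1 : ℕ) : ℂ) * log (q v : ℂ)) := by
        rw [Complex.exp_nat_mul, Complex.exp_log hqc]
      rw [e2, ← Complex.exp_neg, ← Complex.exp_add]
      congr 1
      unfold fr
      rw [← Complex.ofReal_log hq0.le]
      push_cast
      ring
    rw [mul_pow, mul_pow, ← add_div, ← add_mul, e1]
    have e3 := psum_eq h1 h2 (n + 1)
    rw [← e3]
    unfold cf
    push_cast
    have hqc : (q v : ℂ) ≠ 0 := by exact_mod_cast hq0.ne'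
    have hn : ((n : ℂ) + 1) ≠ 0 := by exact_mod_cast Nat.succ_ne_zero n
    field_simp
  have hs : ∀ z : ℂ, ‖z‖ < 1 → HasSum (fun n : ℕ => z ^ (n + 1) / ((n + 1 : ℕ) : ℂ)) (-log (1 - z)) := by
    intro z hz
    have := Complex.hasSum_taylorSeries_neg_log hz
    rw [← hasSum_nat_add_iff' 1] at this
    simpa using this
  have hS : HasSum (fun n : ℕ => (cf q a e (v, n) : ℂ) * exp (-(w * fr q (v, n))))
      (-log (1 - α * x) + -log (1 - β * x)) := by
    simp only [hterm]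
    exact (hs _ hα).add (hs _ hβ)
  refine ⟨hS.summable.hasSum, ?_⟩
  rw [hS.tsum_eq, Complex.exp_add, Complex.exp_neg, Complex.exp_neg]
  have hne : ∀ z : ℂ, ‖z‖ < 1 → 1 - z ≠ 0 := by
    intro z hz h
    rw [sub_eq_zero] at h
    rw [← h] at hz
    simp at hz
  rw [Complex.exp_log (hne _ hα), Complex.exp_log (hne _ hβ), ← mul_inv]
  congr 1
  rw [← h1, ← h2]
  ring

theorem EP.csummable (E : EP q a e) {w : ℂ} (hw : 1 < w.re) :
    Summable fun x : P × ℕ => (cf q a e x : ℂ) * exp (-(w * fr q x)) := by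
  refine Summable.of_norm_bounded (E.summable hw) fun x => ?_
  rw [norm_mul, Complex.norm_real, Real.norm_eq_abs, Complex.norm_exp]
  have : (-(w * fr q x)).re = -(w.re * fr q x) := by rw [Complex.neg_re, Complex.re_mul_ofReal]
  rw [this]

/-- the Euler product is the exponential of the series -/
theorem EP.hasProd (E : EP q a e) {w : ℂ} (hw : 1 < w.re) :
    HasProd (fun v => (1 - a v * (q v : ℂ) ^ (-(1 + w)) + e v * ((q v : ℂ) ^ (-(1 + w))) ^ 2)⁻¹)
      (exp (ser (fr q) (cf q a e) w)) := by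
  have h1 : HasSum (fun x : P × ℕ => (cf q a e x : ℂ) * exp (-(w * fr q x)))
      (ser (fr q) (cf q a e) w) := (E.csummable hw).hasSum
  have h2 := h1.prod_fiberwise (fun v => (E.factor_sum hw.le v).1)
  have h3 := h2.cexp
  have h4 : (Complex.exp ∘ fun v => ∑' n : ℕ, (cf q a e (v, n) : ℂ) * exp (-(w * fr q (v, n)))) =
      fun v => (1 - a v * (q v : ℂ) ^ (-(1 + w)) + e v * ((q v : ℂ) ^ (-(1 + w))) ^ 2)⁻¹ := by
    funext v
    exact (E.factor_sum hw.le v).2
  rw [h4] at h3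
  exact h3

/-- the data for the abstract theorem -/
theorem EP.mdata (E : EP q a e) {F : ℂ → ℂ} (hmer : ∀ x ∈ Icc (1 : ℝ) 3, MeromorphicAt F (x : ℂ))
    (hF : ∀ s : ℂ, 2 < s.re →
      HasProd (fun v => (1 - a v * (q v : ℂ) ^ (-s) + e v * ((q v : ℂ) ^ (-s)) ^ 2)⁻¹) (F s)) :
    MData (fr q) (cf q a e) (fun w => F (1 + w)) where
  lam_pos := E.fr_nonneg
  sum := fun σ hσ => E.summable hσ
  mero := fun x hx => by
    have h1 : MeromorphicAt F (1 + (x : ℂ)) := by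
      have := hmer (1 + x) ⟨by linarith [hx.1], by linarith [hx.2]⟩
      push_cast at this
      exact this
    exact h1.comp_analyticAt (g := fun w : ℂ => 1 + w) (by fun_prop)
  eq := fun w hw => by
    have h1 := hF (1 + w) (by simp; linarith)
    have h2 := E.hasProd hw
    exact h1.unique h2

end Pool.Agent.W189.LC
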