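import Pool.Agent.W189.LC.Refine

/-! The constant `κ = ∫_0^∞ (e^{-t} - 1/Γ(1+t)) dt/t` is the contour integral of the logarithm. -/

set_option autoImplicit false

namespace Pool.Agent.W189.LC

open Complex MeasureTheory Filter Topology Set
open scoped Interval
open Pool.Agent.W189.ML

/-- the constant `κ = ∫_0^∞ (e^{-t} - 1/Γ(1+t)) dt/t` -/
noncomputable def kap : ℝ := ∫ t in Ioi (0 : ℝ), (Real.exp (-t) - (Real.Gamma (1 + t))⁻¹) / t

theorem frullani2 {z : ℂ} (hz : 1 ≤ z.re) :
    log z = ∫ t in Ioi (0 : ℝ), (exp (-(t : ℂ)) - exp (-(z * t))) / t := by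
  have hre : ∀ u : ℝ, 0 ≤ u → 1 ≤ (1 + u * (z - 1)).re := by
    intro u hu
    have : (1 + u * (z - 1)).re = 1 + u * (z.re - 1) := by simp
    rw [this]
    nlinarith
  have e1 : ∫ u in (0 : ℝ)..1, (z - 1) * (1 + u * (z - 1))⁻¹ = log z := by
    have h2 : ∀ u ∈ [[(0 : ℝ), 1]], HasDerivAt (fun u : ℝ => log (1 + u * (z - 1)))
        ((z - 1) * (1 + u * (z - 1))⁻¹) u := by
      intro u hu
      rw [uIcc_of_le zero_le_one] at hu
      have h3 : 1 + u * (z - 1) ∈ slitPlane := by
        left
        have := hre u hu.1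
        linarith
      have h4 : HasDerivAt (fun u : ℝ => 1 + (u : ℂ) * (z - 1)) (z - 1) u := by
        have := ((hasDerivAt_id u).ofReal_comp.mul_const (z - 1)).const_add 1
        simpa using this
      have h5 := (Complex.hasDerivAt_log h3).comp u h4
      refine h5.congr_deriv ?_
      ring
    have h3 := intervalIntegral.integral_eq_sub_of_hasDerivAt h2 ?_
    · rw [h3]
      simp
    · refine ContinuousOn.intervalIntegrable ?_
      refine ContinuousOn.mul continuousOn_const (ContinuousOn.inv₀ (by fun_prop) fun u hu => ?_)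
      rw [uIcc_of_le zero_le_one] at hu
      intro h4
      have := hre u hu.1
      rw [h4] at this
      simp at this
      linarith
  rw [← e1, intervalIntegral.integral_of_le zero_le_one]
  have e2 : ∫ u in Ioc (0 : ℝ) 1, (z - 1) * (1 + u * (z - 1))⁻¹ =
      ∫ u in Ioc (0 : ℝ) 1, ∫ t in Ioi (0 : ℝ), (z - 1) * exp (-((1 + u * (z - 1)) * t)) := by
    refine setIntegral_congr_fun measurableSet_Ioc fun u hu => ?_
    rw [integral_const_mul, (int_exp (z := 1 + u * (z - 1)) (by
      have := hre u hu.1.le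
      linarith)).2]
  rw [e2]
  have hint : Integrable (Function.uncurry fun (u t : ℝ) => (z - 1) * exp (-((1 + u * (z - 1)) * t)))
      ((volume.restrict (Ioc 0 1)).prod (volume.restrict (Ioi (0 : ℝ)))) := by
    have i1 : Integrable (fun _ : ℝ => ‖z - 1‖) (volume.restrict (Ioc 0 1)) :=
      integrableOn_const (by simp) (by simp)
    have i2 : Integrable (fun v : ℝ => Real.exp (-v)) (volume.restrict (Ioi (0 : ℝ))) :=
      integrableOn_exp_neg_Ioi 0
    refine Integrable.mono' (i1.mul_prod i2) ?_ ?_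
    · exact (by unfold Function.uncurry; fun_prop : Continuous (Function.uncurry fun (u t : ℝ) =>
        (z - 1) * exp (-((1 + u * (z - 1)) * t)))).aestronglyMeasurable
    · rw [Measure.prod_restrict]
      filter_upwards [ae_restrict_mem (measurableSet_Ioc.prod measurableSet_Ioi)] with q hq
      obtain ⟨hq1, hq2⟩ := hq
      have hq2' : 0 < q.2 := hq2
      simp only [Function.uncurry]
      rw [norm_mul, Complex.norm_exp]
      refine mul_le_mul_of_nonneg_left ?_ (norm_nonneg _)
      apply Real.exp_le_exp.2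
      have : (-((1 + (q.1 : ℂ) * (z - 1)) * q.2)).re = -((1 + (q.1 : ℂ) * (z - 1)).re * q.2) := by
        rw [Complex.neg_re, Complex.re_mul_ofReal]
      rw [this]
      have := hre q.1 hq1.1.le
      nlinarith
  rw [integral_integral_swap hint]
  refine setIntegral_congr_fun measurableSet_Ioi fun t ht => ?_
  have ht' : 0 < t := ht
  have htc : (t : ℂ) ≠ 0 := by exact_mod_cast ht'.ne'
  beta_reduce
  rw [← intervalIntegral.integral_of_le zero_le_one]
  have h2 : ∀ u ∈ [[(0 : ℝ), 1]], HasDerivAt (fun u : ℝ => -exp (-((1 + u * (z - 1)) * t)) / t)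
      ((z - 1) * exp (-((1 + u * (z - 1)) * t))) u := by
    intro u _
    have h4 : HasDerivAt (fun u : ℝ => -((1 + (u : ℂ) * (z - 1)) * t)) (-((z - 1) * t)) u := by
      have h6 : HasDerivAt (fun u : ℝ => (1 + (u : ℂ) * (z - 1)) * t) ((z - 1) * t) u := by
        have := (((hasDerivAt_id u).ofReal_comp.mul_const (z - 1)).const_add 1).mul_const (t : ℂ)
        simpa using this
      exact h6.neg
    have h5 := (h4.cexp.neg).div_const (t : ℂ)
    refine h5.congr_deriv ?_
    field_simp
  rw [intervalIntegral.integral_eq_sub_of_hasDerivAt h2]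
  · have e3 : (1 + ((1 : ℝ) : ℂ) * (z - 1)) = z := by push_cast; ring
    have e4 : (1 + ((0 : ℝ) : ℂ) * (z - 1)) = 1 := by push_cast; ring
    rw [e3, e4, one_mul]
    ring
  · exact Continuous.intervalIntegrable (by fun_prop) _ _

/-- the difference quotient is bounded by `‖z - 1‖` -/
theorem quot_le {z : ℂ} (hz : 1 ≤ z.re) {t : ℝ} (ht : 0 < t) :
    ‖(exp (-(t : ℂ)) - exp (-(z * t))) / t‖ ≤ ‖z - 1‖ := by
  have h1 : Convex ℝ {w : ℂ | w.re ≤ 0} := convex_halfSpace_re_le 0
  have h2 := h1.norm_image_sub_le_of_norm_hasDerivWithin_le (f := Complex.exp) (f' := Complex.exp)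
    (C := 1) (x := -(z * t)) (y := -(t : ℂ)) (fun w _ => (Complex.hasDerivAt_exp w).hasDerivWithinAt)
    (fun w hw => by
      rw [Complex.norm_exp]
      exact Real.exp_le_one_iff.2 hw) (by
      have : (-(z * t)).re = -(z.re * t) := by rw [Complex.neg_re, Complex.re_mul_ofReal]
      rw [mem_ofPred_eq, this]
      have : 0 ≤ z.re * t := by positivity
      linarith) (by
      simp
      linarith)
  rw [norm_div, Complex.norm_real, Real.norm_eq_abs, abs_of_pos ht, div_le_iff₀ ht]
  refine h2.trans (le_of_eq ?_)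
  have : -(t : ℂ) - -(z * t) = (z - 1) * t := by ring
  rw [this, one_mul, norm_mul, Complex.norm_real, Real.norm_eq_abs, abs_of_pos ht]

theorem norm_sub_one_le {z : ℂ} (hz : z ∈ HS 1) : ‖z - 1‖ ≤ 4 + z.re := by
  have h1 := Complex.norm_le_abs_re_add_abs_im (z - 1)
  have h2 : (z - 1).re = z.re - 1 := by simp
  have h3 : (z - 1).im = z.im := by simp
  rw [h2, h3, abs_of_nonneg (by linarith [hz.1])] at h1
  have := hz.2
  have := Real.pi_lt_four
  linarith

/-- linear bounds for the contour integral -/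
theorem norm_J_lin {Φ : ℂ → ℂ} {M : ℝ} (hM : 0 ≤ M) (h : ∀ z ∈ HS 1, ‖Φ z‖ ≤ M * (4 + z.re)) :
    ‖J 1 Φ‖ ≤ (Real.exp (Real.exp 1) + 1) * (M * 5) := by
  unfold J
  refine (norm_add_le _ _).trans ?_
  have h1 : ‖V 1 Φ‖ ≤ Real.exp (Real.exp 1) * (M * 5) := norm_V_le fun y hy => by
    refine (h _ (vert_mem (a := 1) (abs_le.1 hy).1 (abs_le.1 hy).2)).trans (le_of_eq ?_)
    simp
    norm_num
  have h2 := norm_rays_le (Φ := Φ) (A := M * 4) (B := M) zero_le_one (by positivity) hM
    (fun x (hx : x ∈ Ioi (1 : ℝ)) => by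
      refine (h _ (up_mem (le_of_lt hx))).trans (le_of_eq ?_)
      simp
      ring) (fun x hx => by
      refine (h _ (down_mem (le_of_lt hx))).trans (le_of_eq ?_)
      simp
      ring) (subset_refl (Ioi 1)) measurableSet_Ioi
  linarith

theorem J_quot {t : ℝ} (ht : 0 ≤ t) :
    J 1 (fun z => (exp (-(t : ℂ)) - exp (-(z * t))) / t) =
      (((Real.exp (-t) - (Real.Gamma (1 + t))⁻¹) / t : ℝ) : ℂ) := by
  have e1 : (fun z : ℂ => (exp (-(t : ℂ)) - exp (-(z * t))) / t) =
      fun z => (t : ℂ)⁻¹ * (exp (-(t : ℂ)) * exp (-(z * ((0 : ℝ) : ℂ))) - exp (-(z * t))) := by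
    funext z
    simp
    ring
  rw [e1, J_const_mul, J_sub zero_le_one, J_const_mul, J_exp_zero, J_exp]
  · push_cast
    ring
  · refine ⟨by fun_prop, Real.exp (-t), 0, (Real.exp_pos _).le, le_rfl, fun z hz => ?_⟩
    rw [norm_mul, Complex.norm_exp, Complex.norm_exp]
    simp
  · refine ⟨by fun_prop, 1, 0, zero_le_one, le_rfl, fun z hz => ?_⟩
    rw [Complex.norm_exp, zero_mul, add_zero]
    apply Real.exp_le_one_iff.2
    have : (-(z * t)).re = -(z.re * t) := by rw [Complex.neg_re, Complex.re_mul_ofReal]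
    rw [this]
    have := hz.1
    have : 0 ≤ z.re * t := by positivity
    linarith

theorem quot_bound {t : ℝ} (ht : 0 < t) :
    |(Real.exp (-t) - (Real.Gamma (1 + t))⁻¹) / t| ≤ (Real.exp (Real.exp 1) + 1) * 20 * Real.exp (-t) := by
  have hE : 1 ≤ Real.exp (Real.exp 1) := Real.one_le_exp (Real.exp_pos _).le
  by_cases h : t ≤ 1
  · have h1 := norm_J_lin (Φ := fun z => (exp (-(t : ℂ)) - exp (-(z * t))) / t) zero_le_one
      (fun z hz => by
        rw [one_mul]
        exact (quot_le hz.1 ht).trans (norm_sub_one_le hz))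
    rw [J_quot ht.le, Complex.norm_real, Real.norm_eq_abs] at h1
    have h2 : (1 : ℝ) / 4 ≤ Real.exp (-t) := by
      have h3 : Real.exp 1 < 4 := by
        have := Real.exp_one_lt_d9
        linarith
      have h4 : Real.exp (-1) ≤ Real.exp (-t) := Real.exp_le_exp.2 (by linarith)
      refine le_trans ?_ h4
      rw [Real.exp_neg, one_div]
      exact inv_anti₀ (Real.exp_pos _) h3.le
    nlinarith
  · push Not at h
    have h1 := om_le (a := 1) (v := t) zero_le_one ht.le
    have h2 := om_nonneg (v := t) ht.le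
    unfold om at h1 h2
    rw [one_mul] at h1
    have h3 := Real.exp_pos (-t)
    rw [abs_div, abs_of_pos ht, div_le_iff₀ ht]
    have h4 : |Real.exp (-t) - (Real.Gamma (1 + t))⁻¹| ≤ Real.exp (-t) + (Real.Gamma (1 + t))⁻¹ := by
      rw [abs_le]
      constructor <;> linarith
    refine h4.trans ?_
    have h5 : (Real.exp (Real.exp 1) + 1) * Real.exp (-t) ≤
        (Real.exp (Real.exp 1) + 1) * 19 * Real.exp (-t) := by
      nlinarith
    have h6 : 1 * Real.exp (-t) ≤ (Real.exp (Real.exp 1) + 1) * Real.exp (-t) := by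
      gcongr
      linarith
    have h7 : (Real.exp (Real.exp 1) + 1) * 20 * Real.exp (-t) * 1 ≤
        (Real.exp (Real.exp 1) + 1) * 20 * Real.exp (-t) * t := by
      gcongr
    linarith

theorem quot_meas : AEStronglyMeasurable (fun t : ℝ => (Real.exp (-t) - (Real.Gamma (1 + t))⁻¹) / t)
    (volume.restrict (Ioi 0)) := by
  refine ContinuousOn.aestronglyMeasurable ?_ measurableSet_Ioi
  intro u hu
  have hu' : (0 : ℝ) < u := hu
  have h1 := Real.Gamma_pos_of_pos (by linarith : 0 < 1 + u)
  have h2 : ContinuousAt Real.Gamma (1 + u) := by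
    refine (Real.differentiableAt_Gamma fun m => ?_).continuousAt
    have : (0 : ℝ) ≤ m := m.cast_nonneg
    linarith
  have h3 : ContinuousAt (fun u : ℝ => Real.Gamma (1 + u)) u :=
    ContinuousAt.comp (f := fun u : ℝ => 1 + u) (g := Real.Gamma) h2 (by fun_prop)
  refine ContinuousAt.continuousWithinAt ?_
  refine ContinuousAt.div (ContinuousAt.sub (by fun_prop) (h3.inv₀ h1.ne')) (by fun_prop) hu'.ne'

theorem quot_int : IntegrableOn (fun t : ℝ => (Real.exp (-t) - (Real.Gamma (1 + t))⁻¹) / t) (Ioi 0) := by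
  refine Integrable.mono' ((integrableOn_exp_neg_Ioi 0).const_mul
    ((Real.exp (Real.exp 1) + 1) * 20)) quot_meas ?_
  filter_upwards [ae_restrict_mem measurableSet_Ioi] with u hu
  rw [Real.norm_eq_abs]
  exact quot_bound hu

/-- the truncated integral -/
theorem J_trunc {ε : ℝ} (hε : 0 < ε) :
    J 1 (fun z => ∫ t in Ioi ε, (exp (-(t : ℂ)) - exp (-(z * t))) / t) =
      ((∫ t in Ioi ε, (Real.exp (-t) - (Real.Gamma (1 + t))⁻¹) / t : ℝ) : ℂ) := by
  have i2 : Integrable (fun v : ℝ => Real.exp (-v)) (volume.restrict (Ioi ε)) :=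
    integrableOn_exp_neg_Ioi ε
  have e1 := J_swap (a := 1) zero_le_one (μ := volume.restrict (Ioi ε))
    (F := fun t z => if ε < t then (exp (-(t : ℂ)) - exp (-(z * t))) / t else 0)
    (g := fun t => (2 / ε) * Real.exp (-t)) (i2.const_mul _) ?_ ?_
  · have e2 : ∀ z : ℂ, ∫ t in Ioi ε, (if ε < t then (exp (-(t : ℂ)) - exp (-(z * t))) / t else 0) =
        ∫ t in Ioi ε, (exp (-(t : ℂ)) - exp (-(z * t))) / t := fun z =>
      setIntegral_congr_fun measurableSet_Ioi fun t ht => if_pos ht
    simp only [e2] at e1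
    rw [e1, ← integral_complex_ofReal]
    refine setIntegral_congr_fun measurableSet_Ioi fun t ht => ?_
    have ht' : ε < t := ht
    simp only [if_pos ht']
    exact J_quot (by linarith)
  · refine Measurable.stronglyMeasurable ?_
    unfold Function.uncurry
    refine Measurable.ite ?_ ?_ measurable_const
    · exact measurableSet_lt measurable_const measurable_fst
    · fun_prop
  · intro t z hz
    by_cases ht : ε < t
    · have ht0 : 0 < t := by linarith
      rw [if_pos ht, norm_div, Complex.norm_real, Real.norm_eq_abs, abs_of_pos ht0]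
      have h1 : ‖exp (-(t : ℂ)) - exp (-(z * t))‖ ≤ 2 * Real.exp (-t) := by
        refine (norm_sub_le _ _).trans ?_
        rw [Complex.norm_exp, Complex.norm_exp]
        have h2 : (-(z * t)).re = -(z.re * t) := by rw [Complex.neg_re, Complex.re_mul_ofReal]
        have h3 : (-(t : ℂ)).re = -t := by simp
        rw [h2, h3]
        have h4 : Real.exp (-(z.re * t)) ≤ Real.exp (-t) := by
          apply Real.exp_le_exp.2
          have := hz.1
          nlinarith
        linarith
      calc _ ≤ (2 * Real.exp (-t)) / t := by gcongr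
        _ ≤ (2 * Real.exp (-t)) / ε := by
          gcongr
        _ = _ := by ring
    · rw [if_neg ht, norm_zero]
      positivity

theorem adm_log1 : Adm 1 log := by
  refine ⟨?_, 7, 1, by norm_num, by norm_num, ?_⟩
  · intro z hz
    refine (continuousAt_clog ?_).continuousWithinAt
    left
    have := hz.1
    linarith
  · intro z hz
    refine (norm_log_le hz.1).trans ?_
    have h5 := Complex.norm_le_abs_re_add_abs_im z
    rw [abs_of_nonneg (by have := hz.1; linarith : 0 ≤ z.re)] at h5
    have h6 := hz.2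
    have := Real.pi_lt_four
    linarith

theorem cquot_int {z : ℂ} (hz : 1 ≤ z.re) :
    IntegrableOn (fun t : ℝ => (exp (-(t : ℂ)) - exp (-(z * t))) / t) (Ioi 0) := by
  refine Integrable.mono' ((integrableOn_exp_neg_Ioi 0).const_mul (3 * ‖z - 1‖ + 2)) ?_ ?_
  · refine ContinuousOn.aestronglyMeasurable ?_ measurableSet_Ioi
    refine ContinuousOn.div (by fun_prop) (by fun_prop) fun t ht => ?_
    have : (0 : ℝ) < t := ht
    exact_mod_cast this.ne'
  · filter_upwards [ae_restrict_mem measurableSet_Ioi] with t ht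
    have ht' : (0 : ℝ) < t := ht
    by_cases h : t ≤ 1
    · have h2 : (1 : ℝ) / 3 ≤ Real.exp (-t) := by
        have h3 : Real.exp 1 < 3 := by
          have := Real.exp_one_lt_d9
          linarith
        have h4 : Real.exp (-1) ≤ Real.exp (-t) := Real.exp_le_exp.2 (by linarith)
        refine le_trans ?_ h4
        rw [Real.exp_neg, one_div]
        exact inv_anti₀ (Real.exp_pos _) h3.le
      have h1 := quot_le hz ht'
      have := norm_nonneg (z - 1)
      nlinarith
    · push Not at h
      rw [norm_div, Complex.norm_real, Real.norm_eq_abs, abs_of_pos ht', div_le_iff₀ ht']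
      have h1 : ‖exp (-(t : ℂ)) - exp (-(z * t))‖ ≤ 2 * Real.exp (-t) := by
        refine (norm_sub_le _ _).trans ?_
        rw [Complex.norm_exp, Complex.norm_exp]
        have h2 : (-(z * t)).re = -(z.re * t) := by rw [Complex.neg_re, Complex.re_mul_ofReal]
        have h3 : (-(t : ℂ)).re = -t := by simp
        rw [h2, h3]
        have h4 : Real.exp (-(z.re * t)) ≤ Real.exp (-t) := by
          apply Real.exp_le_exp.2
          nlinarith
        linarith
      have h3 := Real.exp_pos (-t)
      have h4 := norm_nonneg (z - 1)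
      refine h1.trans ?_
      have h5 : 2 * Real.exp (-t) * 1 ≤ 2 * Real.exp (-t) * t := by gcongr
      have h6 : 0 ≤ 3 * ‖z - 1‖ * Real.exp (-t) * t := by positivity
      linarith

/-- **the constant** -/
theorem J_log_eq : J 1 log = kap := by
  have key : ∀ ε : ℝ, 0 < ε → ‖J 1 log - kap‖ ≤
      (Real.exp (Real.exp 1) + 1) * 25 * ε := by
    intro ε hε
    set Φ : ℂ → ℂ := fun z => ∫ t in Ioi ε, (exp (-(t : ℂ)) - exp (-(z * t))) / t with hΦ
    have hsplit : ∀ z ∈ HS 1, log z - Φ z = ∫ t in Ioc 0 ε, (exp (-(t : ℂ)) - exp (-(z * t))) / t := by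
      intro z hz
      rw [frullani2 hz.1, hΦ]
      simp only
      have h1 : Ioi (0 : ℝ) = Ioc 0 ε ∪ Ioi ε := (Ioc_union_Ioi_eq_Ioi hε.le).symm
      rw [h1, setIntegral_union (by
        rw [Set.disjoint_left]
        intro x hx hx2
        exact absurd hx.2 (not_le.2 hx2)) measurableSet_Ioi
        ((cquot_int hz.1).mono_set Ioc_subset_Ioi_self)
        ((cquot_int hz.1).mono_set (Ioi_subset_Ioi hε.le))]
      ring
    have hsmall : ∀ z ∈ HS 1, ‖log z - Φ z‖ ≤ ε * (4 + z.re) := by
      intro z hz
      rw [hsplit z hz]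
      have h1 : ‖∫ t in Ioc 0 ε, (exp (-(t : ℂ)) - exp (-(z * t))) / t‖ ≤
          (4 + z.re) * volume.real (Ioc 0 ε) := by
        refine norm_setIntegral_le_of_norm_le_const (by simp) fun t ht => ?_
        exact (quot_le hz.1 ht.1).trans (norm_sub_one_le hz)
      rw [Real.volume_real_Ioc_of_le hε.le, sub_zero] at h1
      linarith
    have hcont : ContinuousOn Φ (HS 1) := by
      have h1 : ContinuousOn (fun z : ℂ => ∫ t in Ioi ε, (exp (-(t : ℂ)) - exp (-(z * t))) / t)
          (HS 1) := by
        refine continuousOn_of_dominated (bound := fun t => (2 / ε) * Real.exp (-t)) ?_ ?_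
          ((integrableOn_exp_neg_Ioi ε).const_mul _) ?_
        · intro z hz
          exact ((cquot_int hz.1).mono_set (Ioi_subset_Ioi hε.le)).aestronglyMeasurable
        · intro z hz
          filter_upwards [ae_restrict_mem measurableSet_Ioi] with t ht
          have ht' : ε < t := ht
          have ht0 : 0 < t := by linarith
          rw [norm_div, Complex.norm_real, Real.norm_eq_abs, abs_of_pos ht0]
          have h1 : ‖exp (-(t : ℂ)) - exp (-(z * t))‖ ≤ 2 * Real.exp (-t) := by
            refine (norm_sub_le _ _).trans ?_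
            rw [Complex.norm_exp, Complex.norm_exp]
            have h2 : (-(z * t)).re = -(z.re * t) := by rw [Complex.neg_re, Complex.re_mul_ofReal]
            have h3 : (-(t : ℂ)).re = -t := by simp
            rw [h2, h3]
            have h4 : Real.exp (-(z.re * t)) ≤ Real.exp (-t) := by
              apply Real.exp_le_exp.2
              have := hz.1
              nlinarith
            linarith
          calc _ ≤ (2 * Real.exp (-t)) / t := by gcongr
            _ ≤ (2 * Real.exp (-t)) / ε := by
              gcongr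
            _ = _ := by ring
        · filter_upwards [ae_restrict_mem measurableSet_Ioi] with t ht
          fun_prop
      exact h1
    have admΦ : Adm 1 Φ := by
      obtain ⟨A, B, hA, hB, h1⟩ := adm_log1.bound
      refine ⟨hcont, A + ε * 4, B + ε, by positivity, by positivity, fun z hz => ?_⟩
      have h2 := h1 z hz
      have h3 := hsmall z hz
      have h4 : ‖Φ z‖ ≤ ‖log z‖ + ‖log z - Φ z‖ := by
        have := norm_sub_le (log z) (log z - Φ z)
        rwa [sub_sub_cancel] at this
      linarith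
    have h1 : J 1 log - J 1 Φ = J 1 (fun z => log z - Φ z) := (J_sub zero_le_one adm_log1 admΦ).symm
    have h2 := norm_J_lin (Φ := fun z => log z - Φ z) hε.le hsmall
    rw [← h1, hΦ, J_trunc hε] at h2
    have h3 : ‖((∫ t in Ioi ε, (Real.exp (-t) - (Real.Gamma (1 + t))⁻¹) / t : ℝ) : ℂ) - kap‖ ≤
        (Real.exp (Real.exp 1) + 1) * 20 * ε := by
      rw [← Complex.ofReal_sub, Complex.norm_real, Real.norm_eq_abs, abs_sub_comm]
      have h4 : kap - (∫ t in Ioi ε, (Real.exp (-t) - (Real.Gamma (1 + t))⁻¹) / t) =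
          ∫ t in Ioc 0 ε, (Real.exp (-t) - (Real.Gamma (1 + t))⁻¹) / t := by
        unfold kap
        have h5 : Ioi (0 : ℝ) = Ioc 0 ε ∪ Ioi ε := (Ioc_union_Ioi_eq_Ioi hε.le).symm
        rw [h5, setIntegral_union (by
          rw [Set.disjoint_left]
          intro x hx hx2
          exact absurd hx.2 (not_le.2 hx2)) measurableSet_Ioi
          (quot_int.mono_set Ioc_subset_Ioi_self)
          (quot_int.mono_set (Ioi_subset_Ioi hε.le))]
        ring
      rw [h4]
      have h6 : ‖∫ t in Ioc 0 ε, (Real.exp (-t) - (Real.Gamma (1 + t))⁻¹) / t‖ ≤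
          ((Real.exp (Real.exp 1) + 1) * 20) * volume.real (Ioc 0 ε) := by
        refine norm_setIntegral_le_of_norm_le_const (by simp) fun t ht => ?_
        refine (quot_bound ht.1).trans ?_
        have : Real.exp (-t) ≤ 1 := Real.exp_le_one_iff.2 (by linarith [ht.1])
        exact mul_le_of_le_one_right (by positivity) this
      rw [Real.volume_real_Ioc_of_le hε.le, sub_zero] at h6
      exact h6
    have h7 : J 1 log - kap = (J 1 log -
        ((∫ t in Ioi ε, (Real.exp (-t) - (Real.Gamma (1 + t))⁻¹) / t : ℝ) : ℂ)) +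
        (((∫ t in Ioi ε, (Real.exp (-t) - (Real.Gamma (1 + t))⁻¹) / t : ℝ) : ℂ) - kap) := by ring
    rw [h7]
    refine (norm_add_le _ _).trans ?_
    linarith
  have h0 : ‖J 1 log - kap‖ = 0 := by
    by_contra hne
    have hpos : 0 < ‖J 1 log - kap‖ := lt_of_le_of_ne (norm_nonneg _) (Ne.symm hne)
    set C := (Real.exp (Real.exp 1) + 1) * 25 with hC
    have hC0 : 0 < C := by positivity
    have := key (‖J 1 log - kap‖ / (2 * C)) (by positivity)
    have h1 : C * (‖J 1 log - kap‖ / (2 * C)) = ‖J 1 log - kap‖ / 2 := by field_simp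
    rw [h1] at this
    linarith
  exact sub_eq_zero.1 (norm_eq_zero.1 h0)

end Pool.Agent.W189.LC
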